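import Pool.Agent.Lib.MP_a761b9_al.Tree

set_option autoImplicit false

/-!
# Continuous homomorphisms of the tree group

Every continuous homomorphism of `TreeGroup A` to a Hausdorff group is a closed embedding or has
compact image.
-/

namespace Pool.Agent.Lib.MP_a761b9_al

open Filter Topology

universe u

variable {A : Type}

/-! ### The topology -/

lemma isOpen_ev_eq (z w : ℕ → A) : IsOpen {g : TreeGroup A | ev g z = w} := by
  let _ : TopologicalSpace (ℕ → A) := ⊥
  have hd : DiscreteTopology (ℕ → A) := ⟨rfl⟩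
  have h1 : Continuous (fun g : TreeGroup A => ev g z) :=
    (continuous_apply (A := fun _ : ℕ → A => ℕ → A) z).comp continuous_induced_dom
  exact (isOpen_discrete {w}).preimage h1

/-- Convergence in the topology: pointwise eventual equality. -/
lemma tendsto_iff {ι : Type*} (F : ι → TreeGroup A) (l : Filter ι) (g : TreeGroup A) :
    Tendsto F l (𝓝 g) ↔ ∀ z, ∀ᶠ i in l, ev (F i) z = ev g z := by
  let _ : TopologicalSpace (ℕ → A) := ⊥
  have hd : DiscreteTopology (ℕ → A) := ⟨rfl⟩
  rw [nhds_induced, tendsto_comap_iff, tendsto_pi_nhds]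
  refine forall_congr' fun z => ?_
  rw [nhds_discrete, tendsto_pure]
  rfl

lemma continuous_iff {X : Type*} [TopologicalSpace X] (F : X → TreeGroup A) :
    Continuous F ↔ ∀ z w, IsOpen {x | ev (F x) z = w} := by
  let _ : TopologicalSpace (ℕ → A) := ⊥
  have hd : DiscreteTopology (ℕ → A) := ⟨rfl⟩
  rw [continuous_induced_rng, continuous_pi_iff]
  refine forall_congr' fun z => ?_
  rw [continuous_discrete_rng]
  rfl

instance : IsTopologicalGroup (TreeGroup A) where
  continuous_mul := by
    rw [continuous_iff]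
    intro z w
    have h : {x : TreeGroup A × TreeGroup A | ev (x.1 * x.2) z = w} =
        ⋃ v : ℕ → A, {g : TreeGroup A | ev g v = w} ×ˢ {g : TreeGroup A | ev g z = v} := by
      ext x
      simp only [Set.mem_ofPred_eq, Set.mem_iUnion, Set.mem_prod, ev_mul]
      constructor
      · intro h
        exact ⟨ev x.2 z, h, rfl⟩
      · rintro ⟨v, h1, h2⟩
        rw [h2, h1]
    rw [h]
    exact isOpen_iUnion fun v => (isOpen_ev_eq v w).prod (isOpen_ev_eq z v)
  continuous_inv := by
    rw [continuous_iff]
    intro z w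
    have h : {x : TreeGroup A | ev x⁻¹ z = w} = {x : TreeGroup A | ev x w = z} := by
      ext x
      simp only [Set.mem_ofPred_eq]
      constructor
      · rintro rfl
        exact ev_self_inv x z
      · rintro rfl
        exact ev_inv_self x w
    rw [h]
    exact isOpen_ev_eq w z

instance : T2Space (TreeGroup A) := by
  let _ : TopologicalSpace (ℕ → A) := ⊥
  have hd : DiscreteTopology (ℕ → A) := ⟨rfl⟩
  exact T2Space.of_injective_continuous (f := (ev : TreeGroup A → (ℕ → A) → (ℕ → A)))
    (fun g h hgh => TreeGroup_ext fun z => congrFun hgh z) continuous_induced_dom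

lemma nhds_one (U : Set (TreeGroup A)) (hU : U ∈ 𝓝 (1 : TreeGroup A)) :
    ∃ B : Finset (ℕ → A), ∀ g : TreeGroup A, (∀ z ∈ B, ev g z = z) → g ∈ U := by
  classical
  let _ : TopologicalSpace (ℕ → A) := ⊥
  have hd : DiscreteTopology (ℕ → A) := ⟨rfl⟩
  rw [nhds_induced] at hU
  obtain ⟨O, hO, hOU⟩ := hU
  rw [nhds_pi, Filter.mem_pi] at hO
  obtain ⟨I, hI, t, ht, htO⟩ := hO
  refine ⟨hI.toFinset, fun g hg => hOU (htO ?_)⟩
  intro z hz
  have h1 : ev g z = ev 1 z := hg z (hI.mem_toFinset.2 hz)
  rw [h1]
  exact mem_of_mem_nhds (ht z)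

lemma isOpen_pointStab (z : ℕ → A) : IsOpen (pointStab z : Set (TreeGroup A)) :=
  isOpen_ev_eq z z

/-- The group is not omega-narrow: point stabilizers have uncountable index. -/
lemma not_narrow [Nontrivial A] (z : ℕ → A) (C : Set (TreeGroup A)) (hC : C.Countable) :
    ∃ g : TreeGroup A, ∀ c ∈ C, ∀ s ∈ pointStab z, g ≠ c * s := by
  by_contra hcon
  push Not at hcon
  have h1 : (Set.univ : Set (ℕ → A)) ⊆ (fun c => ev c z) '' C := by
    intro w _
    obtain ⟨k, hk⟩ := exists_move z w
    obtain ⟨c, hc, s, hs, hcs⟩ := hcon k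
    refine ⟨c, hc, ?_⟩
    change ev c z = w
    rw [← hk, hcs, ev_mul, (mem_pointStab z s).1 hs]
  have h2 : (Set.univ : Set (ℕ → A)).Countable := (hC.image _).mono h1
  rw [Set.countable_univ_iff] at h2
  obtain ⟨x, y, hxy⟩ := exists_pair_ne A
  classical
  have h3 : Function.Injective (fun s : Set ℕ => (fun i => if i ∈ s then x else y : ℕ → A)) := by
    intro s t hst
    ext i
    have h4 := congrFun hst i
    by_cases hs : i ∈ s <;> by_cases ht : i ∈ t <;> simp_all
  have h5 : Countable (Set ℕ) := h3.countable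
  obtain ⟨e, he⟩ := h5.exists_injective_nat
  exact Function.cantor_injective e he

/-! ### The compact group -/

/-- The product of the symmetric groups of all levels. -/
abbrev Prof (A : Type) : Type := ∀ n : ℕ, Equiv.Perm (Fin n → A)

/-- Its product topology. -/
@[reducible] def topProf (A : Type) : TopologicalSpace (Prof A) :=
  @Pi.topologicalSpace ℕ (fun n => Equiv.Perm (Fin n → A)) (fun _ => ⊥)

lemma prof_facts [Finite A] : @IsTopologicalGroup (Prof A) (topProf A) _ ∧
    @CompactSpace (Prof A) (topProf A) ∧ @T2Space (Prof A) (topProf A) := by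
  let _ : ∀ n : ℕ, TopologicalSpace (Equiv.Perm (Fin n → A)) := fun _ => ⊥
  have : ∀ n : ℕ, DiscreteTopology (Equiv.Perm (Fin n → A)) := fun _ => ⟨rfl⟩
  refine ⟨?_, ?_, ?_⟩
  · infer_instance
  · infer_instance
  · infer_instance

/-- The embedding in the compact group. -/
def toProf (x : A) : TreeGroup A →* Prof A := MonoidHom.pi (rho x)

lemma toProf_injective (x : A) : Function.Injective (toProf x) := by
  rw [injective_iff_map_eq_one]
  intro g hg
  apply TreeGroup_ext
  intro z
  rw [ev_one]
  apply eq_of_Agree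
  intro n
  have h1 : g ∈ (rho x n).ker := by
    rw [MonoidHom.mem_ker]
    exact congrFun hg n
  exact (mem_ker_rho x n g).1 h1 z

lemma toProf_continuous [Finite A] (x : A) :
    @Continuous (TreeGroup A) (Prof A) _ (topProf A) (toProf x) := by
  let _ : ∀ n : ℕ, TopologicalSpace (Equiv.Perm (Fin n → A)) := fun _ => ⊥
  have : ∀ n : ℕ, DiscreteTopology (Equiv.Perm (Fin n → A)) := fun _ => ⟨rfl⟩
  refine continuous_pi fun n => ?_
  change Continuous (fun g => rho x n g)
  rw [continuous_discrete_rng]
  intro p
  have h1 : (fun g : TreeGroup A => rho x n g) ⁻¹' {p} =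
      ⋂ w : Fin n → A, ⋃ (v : ℕ → A) (_ : res n v = p w),
        {g : TreeGroup A | ev g (ext x n w) = v} := by
    ext g
    simp only [Set.mem_preimage, Set.mem_singleton_iff, Set.mem_iInter, Set.mem_iUnion,
      Set.mem_ofPred_eq, exists_prop]
    constructor
    · rintro rfl w
      exact ⟨_, rfl, rfl⟩
    · intro h
      ext1 w
      obtain ⟨v, hv, hg⟩ := h w
      rw [← hv, ← hg]
      rfl
  rw [h1]
  exact isOpen_iInter_of_finite fun w => isOpen_iUnion fun v => isOpen_iUnion fun _ =>
    isOpen_ev_eq _ _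

/-! ### Homomorphisms -/

section hom

variable {Y : Type u} [Group Y] [TopologicalSpace Y] [IsTopologicalGroup Y] [T2Space Y]
  (f : TreeGroup A →* Y)

omit [T2Space Y] in
/-- If `f` is continuous for the profinite topology, then its image is compact. -/
lemma isCompact_range_of [Finite A] [Nonempty A]
    (hP : ∀ U ∈ 𝓝 (1 : Y), ∃ N : ℕ, ∀ s : TreeGroup A, (∀ z, Agree N (ev s z) z) → f s ∈ U) :
    IsCompact (Set.range f) := by
  rw [isCompact_iff_ultrafilter_le_nhds]
  intro v hv
  have hv' : Set.range f ∈ (v : Filter Y) := le_principal_iff.1 hv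
  have hne : (comap f (v : Filter Y)).NeBot := by
    rw [comap_neBot_iff]
    intro t ht
    obtain ⟨y, hy1, g, rfl⟩ := (v.neBot.nonempty_of_mem (inter_mem ht hv'))
    exact ⟨g, hy1⟩
  let u : Ultrafilter (TreeGroup A) := Ultrafilter.of (comap f (v : Filter Y))
  have hu : Tendsto f (u : Filter (TreeGroup A)) (v : Filter Y) :=
    tendsto_comap.mono_left (Ultrafilter.of_le _)
  have huv : Ultrafilter.map f u = v := Ultrafilter.coe_le_coe.1 hu
  obtain ⟨g, hg⟩ := exists_limit u
  refine ⟨f g, ⟨g, rfl⟩, ?_⟩
  rw [← huv]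
  change Tendsto f (u : Filter (TreeGroup A)) (𝓝 (f g))
  have h1 : Tendsto (fun h => (f g)⁻¹ * f h) (u : Filter (TreeGroup A)) (𝓝 1) := by
    intro U hU
    obtain ⟨N, hN⟩ := hP U hU
    rw [mem_map]
    filter_upwards [hg N] with h hh
    change (f g)⁻¹ * f h ∈ U
    rw [← map_inv, ← map_mul]
    apply hN
    intro z
    have h1 := (ev_Agree g⁻¹ N _ _).2 (hh z)
    rw [ev_inv_self] at h1
    exact h1
  have h2 := h1.const_mul (f g)
  simpa using h2

omit [TopologicalSpace Y] [IsTopologicalGroup Y] [T2Space Y] in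
/-- If `f` is not injective, then `f` maps the rigid stabilizers of some level to commutative
groups. -/
lemma exists_comm (hf : ¬ Function.Injective f) :
    ∃ n : ℕ, ∀ (a : ℕ → A) (h k : TreeGroup A), (∀ z, ¬ Agree n z a → ev h z = z) →
      (∀ z, ¬ Agree n z a → ev k z = z) → f h * f k = f k * f h := by
  rw [injective_iff_map_eq_one] at hf
  push Not at hf
  obtain ⟨g, hg1, hg2⟩ := hf
  obtain ⟨b, n, hbn⟩ : ∃ (b : ℕ → A) (n : ℕ), ¬ Agree n (ev g b) b := by
    by_contra hcon
    push Not at hcon
    exact hg2 (TreeGroup_ext fun z => eq_of_Agree fun n => hcon z n)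
  -- the statement for the cylinder of `b`
  have key : ∀ h k : TreeGroup A, (∀ z, ¬ Agree n z b → ev h z = z) →
      (∀ z, ¬ Agree n z b → ev k z = z) → f h * f k = f k * f h := by
    intro h k hh hk
    have h1 : f (g * h * g⁻¹) = f h := by
      rw [map_mul, map_mul, map_inv, hg1]
      simp
    have h2 : (g * h * g⁻¹) * k = k * (g * h * g⁻¹) := by
      -- disjoint supports
      have hs : ∀ z, ¬ Agree n z (ev g b) → ev (g * h * g⁻¹) z = z := by
        intro z hz
        rw [ev_mul, ev_mul, hh, ev_self_inv]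
        intro h3
        apply hz
        have h4 := (ev_Agree g n _ _).2 h3
        rw [ev_self_inv] at h4
        exact h4
      have hs' : ∀ z, Agree n z (ev g b) → Agree n (ev (g * h * g⁻¹) z) (ev g b) := by
        intro z hz
        by_contra hcon
        have h1 := hs _ hcon
        have h2 := ev_injective _ h1
        rw [h2] at hcon
        exact hcon hz
      have hk' : ∀ z, Agree n z b → Agree n (ev k z) b := by
        intro z hz
        by_contra hcon
        have h1 := hk _ hcon
        have h2 := ev_injective _ h1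
        rw [h2] at hcon
        exact hcon hz
      have hdis : ∀ z, Agree n z b → ¬ Agree n z (ev g b) := by
        intro z h1 h2
        exact hbn (h2.symm.trans h1)
      apply TreeGroup_ext
      intro z
      rw [ev_mul (g * h * g⁻¹) k, ev_mul k (g * h * g⁻¹)]
      by_cases hz : Agree n z b
      · rw [hs _ (hdis _ (hk' z hz)), hs _ (hdis z hz)]
      · rw [hk z hz]
        by_cases hz' : Agree n z (ev g b)
        · rw [hk]
          intro h5
          exact hdis _ h5 (hs' z hz')
        · rw [hs z hz', hk z hz]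
    have h3 := congrArg f h2
    rw [map_mul f (g * h * g⁻¹) k, map_mul f k (g * h * g⁻¹), h1] at h3
    exact h3
  refine ⟨n, ?_⟩
  intro a h k hh hk
  obtain ⟨m, hm⟩ := exists_move a b
  have tr : ∀ h : TreeGroup A, (∀ z, ¬ Agree n z a → ev h z = z) →
      ∀ z, ¬ Agree n z b → ev (m * h * m⁻¹) z = z := by
    intro h hh z hz
    rw [ev_mul, ev_mul, hh, ev_self_inv]
    intro h3
    apply hz
    have h4 := (ev_Agree m n _ _).2 h3
    rw [ev_self_inv, hm] at h4
    exact h4
  have h5 := key _ _ (tr h hh) (tr k hk)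
  rw [← map_mul, ← map_mul] at h5
  have h6 : f (m⁻¹ * (m * h * m⁻¹ * (m * k * m⁻¹)) * m) =
      f (m⁻¹ * (m * k * m⁻¹ * (m * h * m⁻¹)) * m) := by
    rw [map_mul, map_mul, h5, ← map_mul, ← map_mul]
  have h7 : m⁻¹ * (m * h * m⁻¹ * (m * k * m⁻¹)) * m = h * k := by group
  have h8 : m⁻¹ * (m * k * m⁻¹ * (m * h * m⁻¹)) * m = k * h := by group
  rw [h7, h8, map_mul, map_mul] at h6
  exact h6

/-- In every cylinder there are cylinders of a bounded level which avoid a given finite set. -/
lemma exists_avoid [Nontrivial A] (B : Finset (ℕ → A)) (n : ℕ) :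
    ∃ N, n ≤ N ∧ ∀ a : ℕ → A, ∃ v : ℕ → A, Agree n v a ∧ ∀ b ∈ B, ¬ Agree N b v := by
  classical
  have hne : ∀ c : A, ∃ d : A, d ≠ c := fun c => exists_ne c
  choose oth hoth using hne
  let e := B.equivFin.symm
  refine ⟨n + B.card, Nat.le_add_right _ _, ?_⟩
  intro a
  refine ⟨fun i => if h : n ≤ i ∧ i < n + B.card then
    oth ((e ⟨i - n, by omega⟩ : ℕ → A) i) else a i, ?_, ?_⟩
  · intro i hi
    change (if h : n ≤ i ∧ i < n + B.card then
      oth ((e ⟨i - n, by omega⟩ : ℕ → A) i) else a i) = a i
    rw [dif_neg (by omega)]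
  · intro b hb hab
    let j : Fin B.card := e.symm ⟨b, hb⟩
    have hj : j.1 < B.card := j.2
    have h1 := hab (n + j) (by omega)
    change b (n + j) = (if h : n ≤ n + (j : ℕ) ∧ n + (j : ℕ) < n + B.card then
      oth ((e ⟨n + (j : ℕ) - n, by omega⟩ : ℕ → A) (n + j)) else a (n + j)) at h1
    rw [dif_pos (by omega)] at h1
    have h2 : (⟨n + (j : ℕ) - n, by omega⟩ : Fin B.card) = j := by
      apply Fin.ext
      simp
    rw [h2] at h1
    have h3 : (e j : ℕ → A) = b := by
      change ((e (e.symm ⟨b, hb⟩) : B) : ℕ → A) = b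
      rw [Equiv.apply_symm_apply]
    rw [h3] at h1
    exact hoth _ h1.symm

omit [IsTopologicalGroup Y] [T2Space Y] in
/-- A non-injective continuous homomorphism is continuous for the profinite topology. -/
lemma prof_of_not_injective [Finite A] [Nontrivial A] (hf : ¬ Function.Injective f)
    (hτ : ∀ U ∈ 𝓝 (1 : Y), ∃ B : Finset (ℕ → A), ∀ g : TreeGroup A,
      (∀ z ∈ B, ev g z = z) → f g ∈ U) (U : Set Y) (hU : U ∈ 𝓝 (1 : Y)) :
    ∃ N : ℕ, ∀ s : TreeGroup A, (∀ z, Agree N (ev s z) z) → f s ∈ U := by
  classical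
  obtain ⟨x⟩ : Nonempty A := inferInstance
  obtain ⟨n, hn⟩ := exists_comm f hf
  obtain ⟨B, hB⟩ := hτ U hU
  obtain ⟨N, hnN, hN⟩ := exists_avoid B n
  refine ⟨N, ?_⟩
  -- an element supported in one cylinder of level `N`
  have one : ∀ (a : ℕ → A) (r : TreeGroup A), (∀ z, Agree N (ev r z) z) →
      (∀ z, ¬ Agree N z a → ev r z = z) →
      ∃ t : TreeGroup A, (∀ z ∈ B, ev t z = z) ∧ f r = f t := by
    intro a r hrN hr
    obtain ⟨v, hva, hvB⟩ := hN a
    -- the move `k`, supported in the cylinder of level `n`
    obtain ⟨k, hk1, hk2⟩ := exists_restr (sw a v) n (ev_sw_Agree a v n hva.symm)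
      {z | Agree n z a} (fun w w' hw hz => hw.symm.trans hz)
    have hkv : ev k a = v := by
      rw [hk1 a (Agree.refl n a)]
      exact ev_sw a v
    refine ⟨k * r * k⁻¹, ?_, ?_⟩
    · intro z hz
      rw [ev_mul, ev_mul, hr, ev_self_inv]
      intro h1
      apply hvB z hz
      have h2 := (ev_Agree k N _ _).2 h1
      rw [ev_self_inv, hkv] at h2
      exact h2
    · have h3 : f k * f r = f r * f k := by
        apply hn a k r hk2
        intro z hz
        exact hr z fun h4 => hz (h4.mono hnN)
      rw [map_mul, map_mul, map_inv, h3]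
      group
  intro s hs
  -- induction over a set of cylinders
  have ind : ∀ S : Finset (Fin N → A), ∃ r t : TreeGroup A,
      (∀ z, res N z ∈ S → ev r z = ev s z) ∧ (∀ z, res N z ∉ S → ev r z = z) ∧
      (∀ z ∈ B, ev t z = z) ∧ f r = f t := by
    intro S
    induction S using Finset.induction_on with
    | empty =>
      refine ⟨1, 1, ?_, ?_, ?_, rfl⟩
      · intro z hz
        simp at hz
      · intro z _
        rfl
      · intro z _
        rfl
    | insert w S hw ih =>
      obtain ⟨r, t, hr1, hr2, ht, hrt⟩ := ih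
      obtain ⟨r', hr'1, hr'2⟩ := exists_restr s N hs {z | res N z = w} (by
        intro a b hab ha
        change res N b = w
        rw [← (res_eq_iff N a b).2 hab]
        exact ha)
      have hresr' : ∀ z, res N (ev r' z) = res N z := by
        intro z
        by_cases hz : res N z = w
        · rw [hr'1 z hz]
          exact (res_eq_iff N _ _).2 (hs z)
        · rw [hr'2 z hz]
      obtain ⟨t', ht', hrt'⟩ := one (ext x N w) r'
        (fun z => (res_eq_iff N _ _).1 (hresr' z)) (by
          intro z hz
          apply hr'2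
          intro h1
          apply hz
          change res N z = w at h1
          rw [← res_eq_iff, h1, res_ext])
      refine ⟨r * r', t * t', ?_, ?_, ?_, ?_⟩
      · intro z hz
        rw [ev_mul]
        by_cases hzw : res N z = w
        · rw [hr'1 z hzw]
          apply hr2
          rw [(res_eq_iff N _ _).2 (hs z), hzw]
          exact hw
        · rw [hr'2 z hzw]
          apply hr1
          rcases Finset.mem_insert.1 hz with h | h
          · exact absurd h hzw
          · exact h
      · intro z hz
        rw [Finset.mem_insert, not_or] at hz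
        rw [ev_mul, hr'2 z hz.1, hr2 z hz.2]
      · intro z hz
        rw [ev_mul, ht' z hz, ht z hz]
      · rw [map_mul, map_mul, hrt, hrt']
  have hfin : Finite (Fin N → A) := inferInstance
  have : Fintype (Fin N → A) := Fintype.ofFinite _
  obtain ⟨r, t, hr1, _, ht, hrt⟩ := ind Finset.univ
  have h1 : r = s := TreeGroup_ext fun z => hr1 z (Finset.mem_univ _)
  rw [← h1, hrt]
  exact hB t ht

/-- The topology induced by `f`. -/
@[reducible] def indTop : TopologicalSpace (TreeGroup A) := TopologicalSpace.induced f inferInstance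

/-- The main theorem. -/
theorem closedEmbedding_or_compact [Finite A] [Nontrivial A] (hf : Continuous f) :
    IsClosedEmbedding f ∨ IsCompact (Set.range f) := by
  classical
  have hτ : ∀ U ∈ 𝓝 (1 : Y), ∃ B : Finset (ℕ → A), ∀ g : TreeGroup A,
      (∀ z ∈ B, ev g z = z) → f g ∈ U := by
    intro U hU
    apply nhds_one
    apply hf.continuousAt.preimage_mem_nhds
    rw [map_one]
    exact hU
  by_cases hinj : Function.Injective f
  swap
  · exact Or.inr (isCompact_range_of f (prof_of_not_injective f hinj hτ))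
  -- the induced topology
  have hσ : @IsTopologicalGroup (TreeGroup A) (indTop f) _ := topologicalGroup_induced f
  have hfc : @Continuous (TreeGroup A) Y (indTop f) _ f := continuous_induced_dom
  have hσ2 : @T2Space (TreeGroup A) (indTop f) :=
    @T2Space.of_injective_continuous (TreeGroup A) Y (indTop f) _ _ f hinj hfc
  by_cases hno : ∀ z : ℕ → A,
      ¬ @IsOpen (TreeGroup A) (indTop f) (pointStab z : Set (TreeGroup A))
  · right
    apply isCompact_range_of
    intro U hU
    apply profinite_case (indTop f) hσ hσ2 _ hno (f ⁻¹' U)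
    · rw [nhds_induced, map_one]
      exact preimage_mem_comap hU
    · intro U hU
      rw [nhds_induced, map_one] at hU
      obtain ⟨O, hO, hOU⟩ := hU
      obtain ⟨B, hB⟩ := hτ O hO
      exact ⟨B, fun g hg => hOU (hB g hg)⟩
  · left
    push Not at hno
    obtain ⟨z0, hz0⟩ := hno
    have hopen : ∀ z w : ℕ → A, @IsOpen (TreeGroup A) (indTop f) {g : TreeGroup A | ev g z = w} := by
      intro z w
      obtain ⟨k, hk⟩ := exists_move z z0
      obtain ⟨m, hm⟩ := exists_move z0 w
      have h1 : {g : TreeGroup A | ev g z = w} =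
          (fun g : TreeGroup A => m⁻¹ * g * k⁻¹) ⁻¹' (pointStab z0 : Set (TreeGroup A)) := by
        ext g
        simp only [Set.mem_ofPred_eq, SetLike.mem_coe, mem_pointStab, Set.mem_preimage, ev_mul]
        rw [← hk, ev_inv_self]
        constructor
        · intro h
          rw [h, hk, ← hm, ev_inv_self]
        · intro h
          have h2 := congrArg (ev m) h
          rw [ev_self_inv, hk, hm] at h2
          exact h2
      rw [h1]
      have hcont : @Continuous (TreeGroup A) (TreeGroup A) (indTop f) (indTop f)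
          (fun g : TreeGroup A => m⁻¹ * g * k⁻¹) :=
        @Continuous.mul (TreeGroup A) (indTop f) _ hσ.toContinuousMul (TreeGroup A) (indTop f) _ _
          (@Continuous.mul (TreeGroup A) (indTop f) _ hσ.toContinuousMul (TreeGroup A) (indTop f)
            _ _ (@continuous_const _ _ (indTop f) (indTop f) _) (@continuous_id _ (indTop f)))
          (@continuous_const _ _ (indTop f) (indTop f) _)
      exact @IsOpen.preimage (TreeGroup A) (TreeGroup A) (indTop f) (indTop f) _ hcont _ hz0
    have hind : instTopologicalSpaceTreeGroup = indTop f := by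
      apply le_antisymm
      · exact continuous_iff_le_induced.1 hf
      · have h2 : @Continuous (TreeGroup A) (TreeGroup A) (indTop f) instTopologicalSpaceTreeGroup
            id := (@continuous_iff A (TreeGroup A) (indTop f) id).2 fun z w => hopen z w
        exact continuous_id_iff_le.1 h2
    have hemb : IsEmbedding f := ⟨⟨hind⟩, hinj⟩
    refine ⟨hemb, ?_⟩
    refine isClosed_of_closure_subset fun y hy => ?_
    have hne : (comap f (𝓝 y)).NeBot := by
      rw [comap_neBot_iff_frequently]
      exact mem_closure_iff_frequently.1 hy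
    let u : Ultrafilter (TreeGroup A) := Ultrafilter.of (comap f (𝓝 y))
    have hu : Tendsto f (u : Filter (TreeGroup A)) (𝓝 y) :=
      tendsto_comap.mono_left (Ultrafilter.of_le _)
    obtain ⟨g, hg⟩ := exists_limit u
    have key : ∀ z, ∀ᶠ h in (u : Filter (TreeGroup A)), ev h z = ev g z := by
      intro z
      have h1 : (pointStab z : Set (TreeGroup A)) ∈ 𝓝 (1 : TreeGroup A) :=
        (isOpen_pointStab z).mem_nhds (one_mem _)
      rw [hemb.nhds_eq_comap, map_one] at h1
      obtain ⟨O, hO, hOW⟩ := h1
      have h2 : Tendsto (fun p : Y × Y => p.1⁻¹ * p.2) (𝓝 y ×ˢ 𝓝 y) (𝓝 1) := by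
        rw [← nhds_prod_eq]
        have h3 : Continuous (fun p : Y × Y => p.1⁻¹ * p.2) := by fun_prop
        have h4 := h3.tendsto (y, y)
        simpa using h4
      have h5 := h2 hO
      rw [mem_map, mem_prod_same_iff] at h5
      obtain ⟨M, hM, hMO⟩ := h5
      have h6 : ∀ᶠ h in (u : Filter (TreeGroup A)), f h ∈ M := hu hM
      obtain ⟨h0, hh0⟩ := h6.exists
      have h7 : ∀ h : TreeGroup A, f h ∈ M → ev h z = ev h0 z := by
        intro h hh
        have h8 : h⁻¹ * h0 ∈ (pointStab z : Set (TreeGroup A)) := by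
          apply hOW
          change f (h⁻¹ * h0) ∈ O
          rw [map_mul, map_inv]
          exact hMO (Set.mk_mem_prod hh hh0)
        have h9 : ev (h⁻¹ * h0) z = z := h8
        rw [ev_mul] at h9
        rw [← ev_self_inv h (ev h0 z), h9]
      have h10 : ev h0 z = ev g z := by
        apply eq_of_Agree
        intro n
        obtain ⟨h, h11, h12⟩ := (h6.and (hg n)).exists
        rw [← h7 h h11]
        exact h12 z
      filter_upwards [h6] with h hh
      rw [h7 h hh, h10]
    have h15 : Tendsto (fun h : TreeGroup A => h) (u : Filter (TreeGroup A)) (𝓝 g) :=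
      (tendsto_iff _ _ _).2 key
    have h17 : Tendsto f (u : Filter (TreeGroup A)) (𝓝 (f g)) := (hf.tendsto g).comp h15
    exact ⟨g, tendsto_nhds_unique h17 hu⟩

end hom

end Pool.Agent.Lib.MP_a761b9_al
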