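import Mathlib

set_option autoImplicit false

/-!
# The automorphism group of a regular rooted tree, with a non-compact group topology

Let `A` be a finite alphabet with at least two letters. `TreeGroup A` is the automorphism group of
the rooted `A`-regular tree acting on the boundary `ℕ → A`, with the topology of pointwise
convergence on the boundary, where the boundary is seen as a discrete set.

We show that every continuous homomorphism of this group to a Hausdorff group is a closed embedding
or has compact image.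
-/

namespace Pool.Agent.Lib.MP_a761b9_al

open Filter Topology

/-- `Agree n a b` says that the infinite words `a` and `b` have the same first `n` letters. -/
def Agree {A : Type} (n : ℕ) (a b : ℕ → A) : Prop := ∀ i, i < n → a i = b i

variable {A : Type}

lemma Agree.refl (n : ℕ) (a : ℕ → A) : Agree n a a := fun _ _ => rfl
lemma Agree.symm {n : ℕ} {a b : ℕ → A} (h : Agree n a b) : Agree n b a :=
  fun i hi => (h i hi).symm
lemma Agree.trans {n : ℕ} {a b c : ℕ → A} (h : Agree n a b) (h' : Agree n b c) : Agree n a c :=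
  fun i hi => (h i hi).trans (h' i hi)
lemma Agree.mono {m n : ℕ} {a b : ℕ → A} (hmn : m ≤ n) (h : Agree n a b) : Agree m a b :=
  fun i hi => h i (lt_of_lt_of_le hi hmn)
lemma eq_of_Agree {a b : ℕ → A} (h : ∀ n, Agree n a b) : a = b :=
  funext fun i => h (i + 1) i (Nat.lt_succ_self i)

/-- The automorphism group of the rooted tree of finite words over `A`, given by its action on
infinite words: the permutations of the set of infinite words which preserve, for every `n`, the
relation of having the same first `n` letters. -/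
def TreeAut (A : Type) : Subgroup (Equiv.Perm (ℕ → A)) where
  carrier := {g | ∀ n a b, Agree n (g a) (g b) ↔ Agree n a b}
  mul_mem' := by
    intro g h hg hh n a b
    simp only [Equiv.Perm.coe_mul, Function.comp_apply]
    rw [hg, hh]
  one_mem' := by
    intro n a b
    simp
  inv_mem' := by
    intro g hg n a b
    have h1 := hg n (g⁻¹ a) (g⁻¹ b)
    have h2 : ∀ z, g (g⁻¹ z) = z := fun z => by simp
    rw [h2, h2] at h1
    exact h1.symm

/-- The same group, as a type of its own (it carries the topology below). -/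
def TreeGroup (A : Type) : Type := TreeAut A

instance : Group (TreeGroup A) := inferInstanceAs (Group (TreeAut A))

/-- The action on infinite words. -/
def ev (g : TreeGroup A) (z : ℕ → A) : ℕ → A := (g.1 : Equiv.Perm (ℕ → A)) z

/-- The topology of pointwise convergence on the set of infinite words, seen as a discrete set:
the coarsest topology such that for all infinite words `z` and `w` the set of the `g` with
`g z = w` is open. -/
instance : TopologicalSpace (TreeGroup A) :=
  TopologicalSpace.induced ev (@Pi.topologicalSpace (ℕ → A) (fun _ => ℕ → A) (fun _ => ⊥))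

@[simp] lemma ev_one (z : ℕ → A) : ev 1 z = z := rfl
@[simp] lemma ev_mul (g h : TreeGroup A) (z : ℕ → A) : ev (g * h) z = ev g (ev h z) := rfl
@[simp] lemma ev_inv_self (g : TreeGroup A) (z : ℕ → A) : ev g⁻¹ (ev g z) = z :=
  (g.1 : Equiv.Perm (ℕ → A)).symm_apply_apply z
@[simp] lemma ev_self_inv (g : TreeGroup A) (z : ℕ → A) : ev g (ev g⁻¹ z) = z :=
  (g.1 : Equiv.Perm (ℕ → A)).apply_symm_apply z
lemma ev_Agree (g : TreeGroup A) (n : ℕ) (a b : ℕ → A) :
    Agree n (ev g a) (ev g b) ↔ Agree n a b := g.2 n a b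
lemma ev_injective (g : TreeGroup A) : Function.Injective (ev g) :=
  (g.1 : Equiv.Perm (ℕ → A)).injective
lemma TreeGroup_ext {g h : TreeGroup A} (H : ∀ z, ev g z = ev h z) : g = h :=
  Subtype.ext (Equiv.ext H)

/-- Restriction of an element of a level stabilizer to a saturated set. -/
lemma exists_restr (t : TreeGroup A) (N : ℕ) (ht : ∀ z, Agree N (ev t z) z) (S : Set (ℕ → A))
    (hS : ∀ a b, Agree N a b → a ∈ S → b ∈ S) :
    ∃ r : TreeGroup A, (∀ z ∈ S, ev r z = ev t z) ∧ (∀ z, z ∉ S → ev r z = z) := by
  classical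
  have ht' : ∀ z, Agree N (ev t⁻¹ z) z := by
    intro z
    have := ht (ev t⁻¹ z)
    rw [ev_self_inv] at this
    exact this.symm
  have h1 : ∀ z, z ∈ S → ev t z ∈ S := fun z hz => hS z _ (ht z).symm hz
  have h2 : ∀ z, z ∈ S → ev t⁻¹ z ∈ S := fun z hz => hS z _ (ht' z).symm hz
  let r : Equiv.Perm (ℕ → A) :=
    { toFun := fun z => if z ∈ S then ev t z else z
      invFun := fun z => if z ∈ S then ev t⁻¹ z else z
      left_inv := by
        intro z
        by_cases hz : z ∈ S
        · simp [hz, h1 z hz]
        · simp [hz]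
      right_inv := by
        intro z
        by_cases hz : z ∈ S
        · simp [hz, h2 z hz]
        · simp [hz] }
  have hr1 : ∀ z ∈ S, r z = ev t z := fun z hz => by
    change (if z ∈ S then ev t z else z) = _
    rw [if_pos hz]
  have hr2 : ∀ z, z ∉ S → r z = z := fun z hz => by
    change (if z ∈ S then ev t z else z) = _
    rw [if_neg hz]
  have hrN : ∀ z, Agree N (r z) z := by
    intro z
    by_cases hz : z ∈ S
    · rw [hr1 z hz]; exact ht z
    · rw [hr2 z hz]; exact Agree.refl _ _
  refine ⟨⟨r, ?_⟩, hr1, hr2⟩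
  intro n a b
  by_cases hn : n ≤ N
  · have ha : Agree n (r a) a := (hrN a).mono hn
    have hb : Agree n (r b) b := (hrN b).mono hn
    exact ⟨fun h => (ha.symm.trans h).trans hb, fun h => (ha.trans h).trans hb.symm⟩
  · push Not at hn
    by_cases ha : a ∈ S
    · by_cases hb : b ∈ S
      · rw [hr1 a ha, hr1 b hb]; exact ev_Agree t n a b
      · constructor
        · intro h
          exfalso
          apply hb
          apply hS a b _ ha
          exact ((hrN a).symm.trans (h.mono hn.le)).trans (hrN b)
        · intro h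
          exfalso
          exact hb (hS a b (h.mono hn.le) ha)
    · by_cases hb : b ∈ S
      · constructor
        · intro h
          exfalso
          apply ha
          apply hS b a _ hb
          exact ((hrN b).symm.trans (h.mono hn.le).symm).trans (hrN a)
        · intro h
          exfalso
          exact ha (hS b a (h.mono hn.le).symm hb)
      · rw [hr2 a ha, hr2 b hb]

/-- Letterwise application of permutations of the alphabet. -/
def letterPerm (σ : ℕ → Equiv.Perm A) : Equiv.Perm (ℕ → A) where
  toFun := fun z i => σ i (z i)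
  invFun := fun z i => (σ i).symm (z i)
  left_inv := fun z => by funext i; simp
  right_inv := fun z => by funext i; simp

/-- Letterwise application of permutations, as an element of the group. -/
def lp (σ : ℕ → Equiv.Perm A) : TreeGroup A := ⟨letterPerm σ, by
  intro n a b
  constructor
  · intro h i hi
    have := h i hi
    change σ i (a i) = σ i (b i) at this
    exact (σ i).injective this
  · intro h i hi
    change σ i (a i) = σ i (b i)
    rw [h i hi]⟩

lemma ev_lp (σ : ℕ → Equiv.Perm A) (z : ℕ → A) (i : ℕ) : ev (lp σ) z i = σ i (z i) := rfl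

/-- The letterwise exchange of `a` and `b`. -/
noncomputable def sw (a b : ℕ → A) : TreeGroup A := by
  classical
  exact lp fun i => Equiv.swap (a i) (b i)

lemma ev_sw (a b : ℕ → A) : ev (sw a b) a = b := by
  classical
  funext i
  change Equiv.swap (a i) (b i) (a i) = b i
  simp

lemma ev_sw_Agree (a b : ℕ → A) (n : ℕ) (h : Agree n a b) (z : ℕ → A) :
    Agree n (ev (sw a b) z) z := by
  classical
  intro i hi
  change Equiv.swap (a i) (b i) (z i) = z i
  rw [h i hi]
  simp

lemma exists_move (a b : ℕ → A) : ∃ k : TreeGroup A, ev k a = b := ⟨sw a b, ev_sw a b⟩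

/-- Two non-commuting elements supported in a given cylinder. -/
lemma exists_noncomm [Nontrivial A] (a : ℕ → A) (n : ℕ) :
    ∃ u p : TreeGroup A, (∀ z, ¬ Agree n z a → ev u z = z) ∧ (∀ z, ¬ Agree n z a → ev p z = z) ∧
      u * p ≠ p * u := by
  classical
  obtain ⟨x, y, hxy⟩ := exists_pair_ne A
  let c1 : ℕ → Equiv.Perm A := fun i => if i = n then Equiv.swap x y else 1
  let c2 : ℕ → Equiv.Perm A := fun i => if i = n + 1 then Equiv.swap x y else 1
  have hc1 : ∀ z, Agree n (ev (lp c1) z) z := by
    intro z i hi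
    rw [ev_lp]
    have : i ≠ n := by omega
    simp [c1, this]
  have hc2 : ∀ z, Agree (n + 1) (ev (lp c2) z) z := by
    intro z i hi
    rw [ev_lp]
    have : i ≠ n + 1 := by omega
    simp [c2, this]
  obtain ⟨u, hu1, hu2⟩ := exists_restr (lp c1) n hc1 {z | Agree n z a}
    (fun w w' hw hz => hw.symm.trans hz)
  obtain ⟨p, hp1, hp2⟩ := exists_restr (lp c2) (n + 1) hc2 {z | Agree n z a ∧ z n = x}
    (fun w w' hw hz => ⟨(hw.mono (Nat.le_succ n)).symm.trans hz.1, by
      rw [← hw n (Nat.lt_succ_self n)]; exact hz.2⟩)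
  refine ⟨u, p, fun z hz => hu2 z hz, fun z hz => hp2 z (fun h => hz h.1), ?_⟩
  intro hup
  let z : ℕ → A := fun i => if i < n then a i else x
  have hz : Agree n z a := by
    intro i hi
    change (if i < n then a i else x) = a i
    rw [if_pos hi]
  have hzn : z n = x := by
    change (if n < n then a n else x) = x
    rw [if_neg (lt_irrefl n)]
  have hzn1 : z (n + 1) = x := by
    change (if n + 1 < n then a (n + 1) else x) = x
    rw [if_neg (by omega)]
  have h1 : ev (u * p) z = ev (p * u) z := by rw [hup]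
  rw [ev_mul, ev_mul, hu1 z hz] at h1
  have h2 : ev p (ev (lp c1) z) = ev (lp c1) z := by
    apply hp2
    rintro ⟨_, h⟩
    rw [ev_lp, hzn] at h
    simp [c1] at h
    exact hxy h.symm
  rw [h2, hp1 z ⟨hz, hzn⟩] at h1
  have h3 : Agree n (ev (lp c2) z) a := ((hc2 z).mono (Nat.le_succ n)).trans hz
  rw [hu1 _ h3] at h1
  have h4 := congrFun h1 (n + 1)
  rw [ev_lp, ev_lp, ev_lp, hzn1] at h4
  simp [c1, c2] at h4
  exact hxy h4.symm

/-- Characterization of the stabilizer of a vertex by commutation relations. -/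
lemma stab_iff [Nontrivial A] (n : ℕ) (a : ℕ → A) (g : TreeGroup A) :
    Agree n (ev g a) a ↔ ∀ h p : TreeGroup A, (∀ z, ¬ Agree n z a → ev h z = z) →
      (∀ z, Agree n z a → ev p z = z) → (g * h * g⁻¹) * p = p * (g * h * g⁻¹) := by
  constructor
  · intro hg h p hh hp
    have key : ∀ z, ¬ Agree n z a → ev (g * h * g⁻¹) z = z := by
      intro z hz
      rw [ev_mul, ev_mul, hh, ev_self_inv]
      intro h1
      apply hz
      have h2 := (ev_Agree g n _ _).2 h1
      rw [ev_self_inv] at h2
      exact h2.trans hg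
    have key2 : ∀ z, Agree n z a → Agree n (ev (g * h * g⁻¹) z) a := by
      intro z hz
      by_contra hcon
      have h1 := key _ hcon
      have h2 := ev_injective _ h1
      rw [h2] at hcon
      exact hcon hz
    have key3 : ∀ z, ¬ Agree n z a → ¬ Agree n (ev p z) a := by
      intro z hz hcon
      have h1 := hp _ hcon
      have h2 := ev_injective _ h1
      rw [h2] at hcon
      exact hz hcon
    apply TreeGroup_ext
    intro z
    by_cases hz : Agree n z a
    · rw [ev_mul (g * h * g⁻¹) p, hp z hz, ev_mul p, hp _ (key2 z hz)]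
    · rw [ev_mul (g * h * g⁻¹) p, key _ (key3 z hz), ev_mul p, key z hz]
  · intro H
    by_contra hg
    obtain ⟨u, p, hu, hp, hup⟩ := exists_noncomm (ev g a) n
    apply hup
    have h1 := H (g⁻¹ * u * g) p ?_ ?_
    · have h2 : g * (g⁻¹ * u * g) * g⁻¹ = u := by group
      rw [h2] at h1
      exact h1
    · intro z hz
      rw [ev_mul, ev_mul, hu, ev_inv_self]
      intro h1
      exact hz ((ev_Agree g n _ _).1 h1)
    · intro z hz
      apply hp
      intro h1
      exact hg (h1.symm.trans hz)

/-- Restriction of an infinite word to its first `n` letters. -/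
def res (n : ℕ) (z : ℕ → A) : Fin n → A := fun i => z i

/-- Extension of a finite word by a fixed letter. -/
def ext (x : A) (n : ℕ) (w : Fin n → A) : ℕ → A := fun i => if h : i < n then w ⟨i, h⟩ else x

lemma res_ext (x : A) (n : ℕ) (w : Fin n → A) : res n (ext x n w) = w := by
  funext i
  simp [res, ext]

lemma res_eq_iff (n : ℕ) (a b : ℕ → A) : res n a = res n b ↔ Agree n a b := by
  constructor
  · intro h i hi
    exact congrFun h ⟨i, hi⟩
  · intro h
    funext i
    exact h i i.2

lemma Agree_ext_res (x : A) (n : ℕ) (z : ℕ → A) : Agree n (ext x n (res n z)) z := by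
  rw [← res_eq_iff, res_ext]

/-- The action on the `n`-th level (the letter `x` only serves to extend words). -/
@[reducible] def act (x : A) (n : ℕ) : MulAction (TreeGroup A) (Fin n → A) where
  smul g w := res n (ev g (ext x n w))
  one_smul w := by
    change res n (ev 1 (ext x n w)) = w
    rw [ev_one, res_ext]
  mul_smul g h w := by
    change res n (ev (g * h) (ext x n w)) = res n (ev g (ext x n (res n (ev h (ext x n w)))))
    rw [res_eq_iff, ev_mul, ev_Agree]
    exact (Agree_ext_res x n _).symm

/-- The homomorphism to the permutations of the `n`-th level. -/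
def rho (x : A) (n : ℕ) : TreeGroup A →* Equiv.Perm (Fin n → A) :=
  @MulAction.toPermHom (TreeGroup A) (Fin n → A) _ (act x n)

lemma rho_apply (x : A) (n : ℕ) (g : TreeGroup A) (w : Fin n → A) :
    rho x n g w = res n (ev g (ext x n w)) := rfl

lemma mem_ker_rho (x : A) (n : ℕ) (g : TreeGroup A) :
    g ∈ (rho x n).ker ↔ ∀ z, Agree n (ev g z) z := by
  rw [MonoidHom.mem_ker]
  constructor
  · intro h z
    have h1 : rho x n g (res n z) = res n z := by rw [h]; rfl
    rw [rho_apply, res_eq_iff] at h1
    exact ((ev_Agree g n _ _).2 (Agree_ext_res x n z).symm).trans h1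
  · intro h
    ext1 w
    rw [rho_apply]
    have := h (ext x n w)
    rw [← res_eq_iff, res_ext] at this
    rw [this]
    rfl

/-- The stabilizer of a boundary point. -/
def pointStab (z : ℕ → A) : Subgroup (TreeGroup A) where
  carrier := {g | ev g z = z}
  mul_mem' := by
    intro g h hg hh
    change ev g z = z at hg
    change ev h z = z at hh
    change ev (g * h) z = z
    rw [ev_mul, hh, hg]
  one_mem' := rfl
  inv_mem' := by
    intro g hg
    change ev g z = z at hg
    change ev g⁻¹ z = z
    conv_lhs => rw [← hg]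
    exact ev_inv_self g z

lemma mem_pointStab (z : ℕ → A) (g : TreeGroup A) : g ∈ pointStab z ↔ ev g z = z := Iff.rfl

section coarser

/-! Facts on an arbitrary Hausdorff group topology `σ` on the group. -/

variable [Nontrivial A] (σ : TopologicalSpace (TreeGroup A))
  (hσ : @IsTopologicalGroup (TreeGroup A) σ _) (hσ2 : @T2Space (TreeGroup A) σ)

include hσ hσ2

/-- Vertex stabilizers are closed in every Hausdorff group topology. -/
lemma isClosed_vertex (n : ℕ) (a : ℕ → A) :
    @IsClosed _ σ {g : TreeGroup A | Agree n (ev g a) a} := by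
  have : {g : TreeGroup A | Agree n (ev g a) a} =
      ⋂ (h : TreeGroup A) (p : TreeGroup A) (_ : ∀ z, ¬ Agree n z a → ev h z = z)
      (_ : ∀ z, Agree n z a → ev p z = z),
      {g : TreeGroup A | (g * h * g⁻¹) * p = p * (g * h * g⁻¹)} := by
    ext g
    simp only [Set.mem_ofPred_eq, Set.mem_iInter]
    rw [stab_iff]
  rw [this]
  let _ := σ
  refine isClosed_iInter fun h => isClosed_iInter fun p => isClosed_iInter fun _ =>
    isClosed_iInter fun _ => isClosed_eq ?_ ?_
  · fun_prop
  · fun_prop

/-- Level stabilizers are open in every Hausdorff group topology. -/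
lemma isOpen_level [Finite A] (x : A) (n : ℕ) :
    @IsOpen _ σ ((rho x n).ker : Set (TreeGroup A)) := by
  let _ := σ
  have hfin : Finite (Equiv.Perm (Fin n → A)) := inferInstance
  have hidx : (rho x n).ker.FiniteIndex := inferInstance
  apply Subgroup.isOpen_of_isClosed_of_finiteIndex
  have : ((rho x n).ker : Set (TreeGroup A)) =
      ⋂ z : ℕ → A, {g : TreeGroup A | Agree n (ev g z) z} := by
    ext g
    simp only [SetLike.mem_coe, mem_ker_rho, Set.mem_iInter, Set.mem_ofPred_eq]
  rw [this]
  exact isClosed_iInter fun z => isClosed_vertex σ hσ hσ2 n z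

lemma isClosed_pointStab (z : ℕ → A) : @IsClosed _ σ (pointStab z : Set (TreeGroup A)) := by
  have : (pointStab z : Set (TreeGroup A)) =
      ⋂ n : ℕ, {g : TreeGroup A | Agree n (ev g z) z} := by
    ext g
    simp only [SetLike.mem_coe, mem_pointStab, Set.mem_iInter, Set.mem_ofPred_eq]
    exact ⟨fun h n => by rw [h]; exact Agree.refl _ _, fun h => eq_of_Agree h⟩
  rw [this]
  let _ := σ
  exact isClosed_iInter fun n => isClosed_vertex σ hσ hσ2 n z

/-- If no point stabilizer is open, then a coarser topology is the profinite one. -/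
lemma profinite_case [Finite A]
    (hτ : ∀ U ∈ @nhds _ σ (1 : TreeGroup A), ∃ B : Finset (ℕ → A), ∀ g : TreeGroup A,
      (∀ z ∈ B, ev g z = z) → g ∈ U)
    (hno : ∀ z : ℕ → A, ¬ @IsOpen (TreeGroup A) σ (pointStab z : Set (TreeGroup A))) (U : Set (TreeGroup A))
    (hU : U ∈ @nhds _ σ (1 : TreeGroup A)) :
    ∃ N : ℕ, ∀ s : TreeGroup A, (∀ z, Agree N (ev s z) z) → s ∈ U := by
  classical
  let _ := σ
  obtain ⟨x⟩ : Nonempty A := inferInstance
  obtain ⟨V, hV, hVU⟩ := exists_nhds_one_split4 hU
  have hV' : V ∩ V⁻¹ ∈ 𝓝 (1 : TreeGroup A) := inter_mem hV (inv_mem_nhds_one (TreeGroup A) hV)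
  obtain ⟨B, hB⟩ := hτ _ hV'
  -- a level separating the points of `B`
  obtain ⟨n, hn⟩ : ∃ n : ℕ, ∀ a ∈ B, ∀ b ∈ B, Agree n a b → a = b := by
    have h1 : ∀ p : (ℕ → A) × (ℕ → A), ∃ n : ℕ, Agree n p.1 p.2 → p.1 = p.2 := by
      intro p
      by_cases h : p.1 = p.2
      · exact ⟨0, fun _ => h⟩
      · by_contra hcon
        push Not at hcon
        exact h (eq_of_Agree fun n => (hcon n).1)
    choose k hk using h1
    refine ⟨(B ×ˢ B).sup k, ?_⟩
    intro a ha b hb hab
    apply hk (a, b)
    apply hab.mono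
    exact Finset.le_sup (f := k) (Finset.mk_mem_product ha hb)
  -- a small element moving every point of `B`
  have hdense : ∀ C : Finset (ℕ → A), IsOpen {g : TreeGroup A | ∀ z ∈ C, ev g z ≠ z} ∧
      Dense {g : TreeGroup A | ∀ z ∈ C, ev g z ≠ z} := by
    intro C
    induction C using Finset.induction_on with
    | empty => simp
    | insert z C hz ih =>
      have h1 : {g : TreeGroup A | ∀ w ∈ insert z C, ev g w ≠ w} =
          (pointStab z : Set (TreeGroup A))ᶜ ∩ {g : TreeGroup A | ∀ w ∈ C, ev g w ≠ w} := by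
        ext g
        simp [mem_pointStab]
      rw [h1]
      have h2 : IsOpen (pointStab z : Set (TreeGroup A))ᶜ :=
        (isClosed_pointStab σ hσ hσ2 z).isOpen_compl
      have h3 : Dense (pointStab z : Set (TreeGroup A))ᶜ := by
        rw [← interior_eq_empty_iff_dense_compl]
        by_contra hne
        obtain ⟨g, hg⟩ := Set.nonempty_iff_ne_empty.2 hne
        exact hno z (Subgroup.isOpen_of_mem_nhds (pointStab z) (mem_interior_iff_mem_nhds.1 hg))
      exact ⟨h2.inter ih.1, h3.inter_of_isOpen_left ih.2 h2⟩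
  have hV'' : (V ∩ V⁻¹) ∩ ((rho x n).ker : Set (TreeGroup A)) ∈ 𝓝 (1 : TreeGroup A) :=
    inter_mem hV' ((isOpen_level σ hσ hσ2 x n).mem_nhds (one_mem _))
  obtain ⟨g, hgV, hgB⟩ : ∃ g : TreeGroup A, g ∈ (V ∩ V⁻¹) ∩ ((rho x n).ker : Set (TreeGroup A)) ∧
      ∀ z ∈ B, ev g z ≠ z := by
    obtain ⟨g, hg⟩ := (hdense B).2.inter_nhds_nonempty hV''
    exact ⟨g, hg.2, hg.1⟩
  have hgn : ∀ z, Agree n (ev g z) z := (mem_ker_rho x n g).1 hgV.2
  -- a level at which this is visible
  obtain ⟨N, hnN, hN⟩ : ∃ N : ℕ, n ≤ N ∧ ∀ z ∈ B, ¬ Agree N (ev g z) z := by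
    have h1 : ∀ z : ℕ → A, ∃ m : ℕ, z ∈ B → ¬ Agree m (ev g z) z := by
      intro z
      by_contra hcon
      push Not at hcon
      exact hgB z (hcon 0).1 (eq_of_Agree fun m => (hcon m).2)
    choose k hk using h1
    refine ⟨max n (B.sup k), le_max_left _ _, ?_⟩
    intro z hz h
    apply hk z hz
    apply h.mono
    exact le_trans (Finset.le_sup (f := k) hz) (le_max_right _ _)
  refine ⟨N, ?_⟩
  intro s hs
  have ht : ∀ z, Agree N (ev (g⁻¹ * s * g) z) z := by
    intro z
    rw [ev_mul, ev_mul]
    have h1 := (ev_Agree g⁻¹ N _ _).2 (hs (ev g z))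
    rw [ev_inv_self] at h1
    exact h1
  obtain ⟨b, hb1, hb2⟩ := exists_restr (g⁻¹ * s * g) N ht
    {z | ∃ x ∈ B, Agree N z (ev g⁻¹ x)} (by
      rintro x y hxy ⟨w, hw, hxw⟩
      exact ⟨w, hw, hxy.symm.trans hxw⟩)
  have hbB : ∀ z ∈ B, ev b z = z := by
    intro z hz
    apply hb2
    rintro ⟨x, hx, hzx⟩
    have h1 : Agree n (ev g⁻¹ x) x := by
      have := hgn (ev g⁻¹ x)
      rw [ev_self_inv] at this
      exact this.symm
    have h2 : z = x := hn z hz x hx ((hzx.mono hnN).trans h1)
    subst h2
    have h3 := (ev_Agree g N _ _).2 hzx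
    rw [ev_self_inv] at h3
    exact hN z hz h3
  have hbV := hB b hbB
  have hc : ∀ z ∈ B, ev ((g * b * g⁻¹)⁻¹ * s) z = z := by
    intro z hz
    have h1 : ev (g * b * g⁻¹) z = ev s z := by
      rw [ev_mul, ev_mul, hb1 (ev g⁻¹ z) ⟨z, hz, Agree.refl _ _⟩]
      simp only [ev_mul, ev_self_inv]
    rw [ev_mul, ← h1, ev_inv_self]
  have hcV := hB _ hc
  have hginv : g⁻¹ ∈ V := hgV.1.2
  have := hVU hgV.1.1 hbV.1 hginv hcV.1
  have h5 : g * b * g⁻¹ * ((g * b * g⁻¹)⁻¹ * s) = s := by group
  rw [h5] at this
  exact this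

end coarser

/-- Compactness of the tree automorphism group in the profinite topology. -/
lemma exists_limit [Finite A] [Nonempty A] (u : Ultrafilter (TreeGroup A)) :
    ∃ g : TreeGroup A, ∀ n : ℕ, ∀ᶠ h : TreeGroup A in (u : Filter (TreeGroup A)),
      ∀ z, Agree n (ev h z) (ev g z) := by
  classical
  obtain ⟨x⟩ : Nonempty A := inferInstance
  have key : ∀ F : TreeGroup A → (ℕ → A), ∃ l : ℕ → A, ∀ n : ℕ,
      ∀ᶠ h in (u : Filter (TreeGroup A)), Agree n (F h) l := by
    intro F
    have h1 : ∀ i : ℕ, ∃ c : A, ∀ᶠ h in (u : Filter (TreeGroup A)), F h i = c := by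
      intro i
      obtain ⟨c, hc⟩ := Ultrafilter.eq_pure_of_finite (Ultrafilter.map (fun h => F h i) u)
      refine ⟨c, ?_⟩
      have h2 : {c} ∈ Ultrafilter.map (fun h => F h i) u := by
        rw [hc]
        exact rfl
      exact h2
    choose l hl using h1
    refine ⟨l, ?_⟩
    intro n
    have h3 : ∀ᶠ h in (u : Filter (TreeGroup A)), ∀ i ∈ Finset.range n, F h i = l i :=
      (Filter.eventually_all_finset (Finset.range n)).2 fun i _ => hl i
    filter_upwards [h3] with h hh i hi
    exact hh i (Finset.mem_range.2 hi)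
  choose L hL using fun z : ℕ → A => key fun h => ev h z
  choose L' hL' using fun z : ℕ → A => key fun h => ev h⁻¹ z
  have hll : ∀ z, L' (L z) = z := by
    intro z
    apply eq_of_Agree
    intro n
    obtain ⟨h, h1, h2⟩ := ((hL z n).and (hL' (L z) n)).exists
    have h3 := (ev_Agree h⁻¹ n _ _).2 h1
    rw [ev_inv_self] at h3
    exact (h3.trans h2).symm
  have hrr : ∀ z, L (L' z) = z := by
    intro z
    apply eq_of_Agree
    intro n
    obtain ⟨h, h1, h2⟩ := ((hL' z n).and (hL (L' z) n)).exists
    have h3 := (ev_Agree h n _ _).2 h1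
    rw [ev_self_inv] at h3
    exact (h3.trans h2).symm
  let g : Equiv.Perm (ℕ → A) := ⟨L, L', hll, hrr⟩
  have hg : g ∈ TreeAut A := by
    intro n a b
    obtain ⟨h, h1, h2⟩ := ((hL a n).and (hL b n)).exists
    change Agree n (L a) (L b) ↔ Agree n a b
    rw [← ev_Agree h n a b]
    exact ⟨fun h3 => (h1.trans h3).trans h2.symm, fun h3 => (h1.symm.trans h3).trans h2⟩
  refine ⟨⟨g, hg⟩, ?_⟩
  intro n
  have h3 : ∀ᶠ h in (u : Filter (TreeGroup A)),
      ∀ w : Fin n → A, Agree n (ev h (ext x n w)) (L (ext x n w)) :=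
    Filter.eventually_all.2 fun w => hL (ext x n w) n
  filter_upwards [h3] with h hh z
  have h4 : Agree n (ev h z) (ev h (ext x n (res n z))) :=
    (ev_Agree h n _ _).2 (Agree_ext_res x n z).symm
  have h5 : Agree n (ev (⟨g, hg⟩ : TreeGroup A) (ext x n (res n z)))
      (ev (⟨g, hg⟩ : TreeGroup A) z) :=
    (ev_Agree ⟨g, hg⟩ n _ _).2 (Agree_ext_res x n z)
  exact (h4.trans (hh (res n z))).trans h5

end Pool.Agent.Lib.MP_a761b9_al
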